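import Pool.Agent.Helper55.RG.Spec6

/-! RG parts SPM and CON. -/

set_option autoImplicit false
set_option linter.all false

open Polynomial IsDedekindDomain NumberField
open scoped Classical

namespace Pool.Agent.Helper54.RG

open Pool.Agent.TH115.GD Pool.Agent.R939.EI Pool.Agent.Helper55.RG

/-- SPM -/
theorem spm : S_SPM := by
  intro k k' _ _ _ _ _ M k₂ _ _ _ h σ
  haveI : IsGalois k k' := IsSepClosure.isGalois
  let H : Subgroup (M ≃ₐ[k] M) :=
    k₂.fixingSubgroup.map (AlgEquiv.restrictNormalHom (F := k) (K₁ := k') M)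
  have hfix : IntermediateField.fixedField H = ⊥ := by
    rw [eq_bot_iff]
    intro x hx
    have h1 : (x : k') ∈ k₂ := by
      rw [← InfiniteGalois.fixedField_fixingSubgroup k₂, IntermediateField.mem_fixedField_iff]
      intro τ hτ
      have h2 := (IntermediateField.mem_fixedField_iff H x).1 hx
        (AlgEquiv.restrictNormalHom M τ) (Subgroup.mem_map_of_mem _ hτ)
      have h4 : algebraMap M k' (AlgEquiv.restrictNormalHom M τ x) = τ (algebraMap M k' x) :=
        AlgEquiv.restrictNormal_commutes τ M x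
      rw [h2] at h4
      exact h4.symm
    have h5 : (x : k') ∈ (⊥ : IntermediateField k k') := by
      rw [← h]
      exact ⟨h1, x.2⟩
    obtain ⟨y, hy⟩ := IntermediateField.mem_bot.1 h5
    exact IntermediateField.mem_bot.2 ⟨y, Subtype.ext hy⟩
  have htop : H = ⊤ := by
    rw [← IntermediateField.fixingSubgroup_fixedField H, hfix, IntermediateField.fixingSubgroup_bot]
  have hmem : AlgEquiv.restrictNormalHom M σ ∈ H := by rw [htop]; trivial
  obtain ⟨τ, hτ, hτσ⟩ := hmem
  refine ⟨τ, ?_, ?_⟩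
  · intro x hx
    have h1 : algebraMap M k' (AlgEquiv.restrictNormalHom M τ ⟨x, hx⟩) = τ x :=
      AlgEquiv.restrictNormal_commutes τ M ⟨x, hx⟩
    have h2 : algebraMap M k' (AlgEquiv.restrictNormalHom M σ ⟨x, hx⟩) = σ x :=
      AlgEquiv.restrictNormal_commutes σ M ⟨x, hx⟩
    rw [← h1, ← h2, hτσ]
  · intro x hx
    exact (IntermediateField.mem_fixingSubgroup_iff k₂ τ).1 hτ x hx

section con

variable {k k' K F : Type} [Field k] [CharZero k] [Field k'] [Algebra k k'] [Field K]
  [Algebra k[X] K] [Field F] [Algebra k'[X] F] [IsFractionRing k'[X] F] [Algebra K F]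

/-- `τ` acts on `k'[t]` through `s` -/
def Rel (τ : Sep F ≃ₐ[K] Sep F) (s : k' ≃ₐ[k] k') : Prop :=
  ∀ p : k'[X], τ (em k' F (Sep F) p) = em k' F (Sep F) (p.map (s : k' →+* k'))

theorem Rel.mul {τ τ' : Sep F ≃ₐ[K] Sep F} {s s' : k' ≃ₐ[k] k'} (h : Rel τ s) (h' : Rel τ' s') :
    Rel (τ * τ') (s * s') := by
  intro p
  have h1 : (τ * τ') (em k' F (Sep F) p) = τ (τ' (em k' F (Sep F) p)) := rfl
  rw [h1, h' p, h (p.map (s' : k' →+* k')), Polynomial.map_map]
  rfl

theorem Rel.inv {τ : Sep F ≃ₐ[K] Sep F} {s : k' ≃ₐ[k] k'} (h : Rel τ s) : Rel τ⁻¹ s⁻¹ := by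
  intro p
  have h1 := h (p.map ((s⁻¹ : k' ≃ₐ[k] k') : k' →+* k'))
  rw [Polynomial.map_map] at h1
  have h2 : ((s : k' →+* k').comp ((s⁻¹ : k' ≃ₐ[k] k') : k' →+* k')) = RingHom.id k' := by
    ext x
    exact s.apply_symm_apply x
  rw [h2, Polynomial.map_id] at h1
  rw [← h1]
  exact τ.symm_apply_apply _

theorem Rel.one : Rel (1 : Sep F ≃ₐ[K] Sep F) (1 : k' ≃ₐ[k] k') := by
  intro p
  have h2 : ((1 : k' ≃ₐ[k] k') : k' →+* k') = RingHom.id k' := by
    ext x
    rfl
  rw [h2, Polynomial.map_id]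
  rfl

theorem em_C_inj : Function.Injective (fun c : k' => em k' F (Sep F) (C c)) := by
  intro a b hab
  have h1 : algebraMap F (Sep F) (algebraMap k'[X] F (C a)) =
      algebraMap F (Sep F) (algebraMap k'[X] F (C b)) := hab
  exact C_injective (IsFractionRing.injective k'[X] F ((algebraMap F (Sep F)).injective h1))

end con

/-- CON -/
theorem con : S_CON := by
  intro k k' K F _ _ _ _ _ _ _ _ _ _ hT L _ _ k₂ _ K₂ _ _ _ hT₂ c hc τ hτ hτL
  haveI := hT.sep
  haveI := hT.fracK
  haveI := hT₂.fracK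
  haveI : IsSepClosed k' := IsSepClosure.sep_closed k
  haveI : IsGalois k k' := IsSepClosure.isGalois
  haveI : IsSepClosure K (Sep F) := sepKΩ hT.map
  haveI : IsGalois K (Sep F) := IsSepClosure.isGalois
  haveI : FiniteDimensional k (IntermediateField.adjoin k ({c} : Set k')) :=
    IntermediateField.adjoin.finiteDimensional (Algebra.IsIntegral.isIntegral c)
  let E0 : IntermediateField k k' := k₂ ⊔ IntermediateField.adjoin k ({c} : Set k')
  let E : IntermediateField k k' := IntermediateField.normalClosure k E0 k'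
  haveI : FiniteDimensional k E0 := inferInstance
  haveI : FiniteDimensional k E := inferInstance
  haveI : Normal k E := inferInstance
  haveI : IsGalois k E := ⟨⟩
  have hE0 : E0 ≤ E := IntermediateField.le_normalClosure E0
  have hcE : c ∈ E := hE0 (le_sup_right (a := k₂)
    (IntermediateField.mem_adjoin_simple_self k c))
  have hk₂E : k₂ ≤ E := le_sup_left.trans hE0
  -- the image of the fixing subgroup
  let H : Subgroup (E ≃ₐ[k] E) :=
    { carrier := {g | ∃ σ ∈ L.fixingSubgroup, ∃ s : k' ≃ₐ[k] k', Rel σ s ∧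
        AlgEquiv.restrictNormalHom E s = g}
      mul_mem' := by
        rintro _ _ ⟨σ, hσ, s, hs, rfl⟩ ⟨σ', hσ', s', hs', rfl⟩
        exact ⟨σ * σ', mul_mem hσ hσ', s * s', hs.mul hs', map_mul _ _ _⟩
      one_mem' := ⟨1, one_mem _, 1, Rel.one, map_one _⟩
      inv_mem' := by
        rintro _ ⟨σ, hσ, s, hs, rfl⟩
        exact ⟨σ⁻¹, inv_mem hσ, s⁻¹, hs.inv, map_inv _ _⟩ }
  have hmem : AlgEquiv.restrictNormalHom E τ ∈ H := by
    rw [← IntermediateField.fixingSubgroup_fixedField H, IntermediateField.mem_fixingSubgroup_iff]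
    intro x hx
    have h1 : em k' F (Sep F) (C (x : k')) ∈ L := by
      rw [← InfiniteGalois.fixedField_fixingSubgroup L, IntermediateField.mem_fixedField_iff]
      intro σ hσ
      obtain ⟨s, hs⟩ := restr (k' := k') (Ω := Sep F) hT.map σ
      have hs' : Rel σ s := hs
      have h2 := (IntermediateField.mem_fixedField_iff H x).1 hx
        (AlgEquiv.restrictNormalHom E s) ⟨σ, hσ, s, hs', rfl⟩
      have h4 : algebraMap E k' (AlgEquiv.restrictNormalHom E s x) = s (algebraMap E k' x) :=
        AlgEquiv.restrictNormal_commutes s E x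
      rw [h2] at h4
      have h5 := hs' (C (x : k'))
      rw [Polynomial.map_C] at h5
      rw [h5]
      congr 2
      exact h4.symm
    have h3 := hτL _ h1
    apply Subtype.ext
    have h4 : algebraMap E k' (AlgEquiv.restrictNormalHom E τ x) = τ (algebraMap E k' x) :=
      AlgEquiv.restrictNormal_commutes τ E x
    exact h4.trans h3
  obtain ⟨σ, hσ, s, hs, hsτ⟩ := hmem
  have hsE : ∀ x ∈ E, s x = τ x := by
    intro x hx
    have h1 : algebraMap E k' (AlgEquiv.restrictNormalHom E s ⟨x, hx⟩) = s x :=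
      AlgEquiv.restrictNormal_commutes s E ⟨x, hx⟩
    have h2 : algebraMap E k' (AlgEquiv.restrictNormalHom E τ ⟨x, hx⟩) = τ x :=
      AlgEquiv.restrictNormal_commutes τ E ⟨x, hx⟩
    rw [← h1, ← h2, hsτ]
  -- `σ` fixes `K₂ L`
  have hK₂ : ∀ x : K₂, σ (algebraMap K₂ (Sep F) x) = algebraMap K₂ (Sep F) x := by
    have hpoly : ∀ p : k₂[X], σ (algebraMap K₂ (Sep F) (algebraMap k₂[X] K₂ p)) =
        algebraMap K₂ (Sep F) (algebraMap k₂[X] K₂ p) := by
      intro p
      have h1 : algebraMap K₂ (Sep F) (algebraMap k₂[X] K₂ p) =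
          em k' F (Sep F) (p.map (algebraMap k₂ k')) := by
        rw [IsScalarTower.algebraMap_apply K₂ F (Sep F), hT₂.map p]
        rfl
      rw [h1, hs, Polynomial.map_map]
      congr 2
      ext x
      show s (x : k') = (x : k')
      rw [hsE _ (hk₂E x.2)]
      exact hτ _ x.2
    intro x
    obtain ⟨n, d, hd, rfl⟩ := IsFractionRing.div_surjective (A := k₂[X]) x
    rw [map_div₀, map_div₀, hpoly, hpoly]
  have hfix : σ (em k' F (Sep F) (C c)) = em k' F (Sep F) (C c) := by
    have hL : ∀ x ∈ L, σ x = x := fun x hx =>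
      (IntermediateField.mem_fixingSubgroup_iff L σ).1 hσ x hx
    refine IntermediateField.adjoin_induction K₂ (p := fun x _ => σ x = x)
      ?_ ?_ ?_ ?_ ?_ hc
    · intro x hx
      exact hL x hx
    · intro x
      exact hK₂ x
    · intro x y _ _ hx hy
      rw [map_add, hx, hy]
    · intro x _ hx
      rw [map_inv₀, hx]
    · intro x y _ _ hx hy
      rw [map_mul, hx, hy]
  have h1 := hs (C c)
  rw [Polynomial.map_C, hfix] at h1
  have h2 : c = s c := em_C_inj (F := F) h1
  rw [hsE c hcE] at h2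
  exact h2.symm

end Pool.Agent.Helper54.RG
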